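import Mathlib

set_option autoImplicit false

namespace SlowChain

/-- the cells of the grid `G_{m,n}`: pairs `(i,j)` with `1 ≤ i ≤ m` and `1 ≤ j ≤ n` -/
def cells (m n : ℕ) : Finset (ℕ × ℕ) := Finset.Icc 1 m ×ˢ Finset.Icc 1 n

/-- adjacency of cells: `|i - i'| + |j - j'| = 1` -/
def Adj (p q : ℕ × ℕ) : Prop := |(p.1 : ℤ) - q.1| + |(p.2 : ℤ) - q.2| = 1

/-- order ideals (down-sets for the coordinatewise order) of the grid -/
def IsIdeal (m n : ℕ) (A : Finset (ℕ × ℕ)) : Prop :=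
  A ⊆ cells m n ∧ ∀ p ∈ A, ∀ q ∈ cells m n, q.1 ≤ p.1 → q.2 ≤ p.2 → q ∈ A

open Classical in
/-- the closed neighbourhood `N[A]` in the grid graph -/
noncomputable def closedNbhd (m n : ℕ) (A : Finset (ℕ × ℕ)) : Finset (ℕ × ℕ) :=
  (cells m n).filter (fun q => q ∈ A ∨ ∃ p ∈ A, Adj p q)

/-- `ν(s)`, the least size of the closed neighbourhood of an order ideal of size `s` -/
noncomputable def nu (m n s : ℕ) : ℕ :=
  sInf {t : ℕ | ∃ A : Finset (ℕ × ℕ), IsIdeal m n A ∧ A.card = s ∧ (closedNbhd m n A).card = t}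

/-- `c 0, c 1, ..., c L` is a ν-chain on `G_{m,n}` -/
def IsNuChain (m n L : ℕ) (c : ℕ → ℕ) : Prop :=
  (∀ l ≤ L, c l ≤ m * n) ∧ ∀ l < L, nu m n (c l) ≤ c (l + 1)

/-- the weight `∑_{l=0}^{L} min(c_l, mn - c_l)` -/
def weight (m n L : ℕ) (c : ℕ → ℕ) : ℕ :=
  ∑ l ∈ Finset.range (L + 1), min (c l) (m * n - c l)

/-- the antidiagonal chain: `adiag m n l` is the number of cells `(i,j)` with `i + j ≤ l + 2` -/
def adiag (m n l : ℕ) : ℕ := ((cells m n).filter (fun p => p.1 + p.2 ≤ l + 2)).card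

end SlowChain
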