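import Pool.Agent.SlowChain.Key

set_option autoImplicit false

namespace SlowChain

open Finset

/-! ### the antidiagonal chain -/

/-- the sublevel set -/
def sub (m n l : ℕ) : Finset (ℕ × ℕ) := (cells m n).filter (fun p => p.1 + p.2 ≤ l + 2)

lemma mem_sub {m n l : ℕ} {p : ℕ × ℕ} : p ∈ sub m n l ↔ p ∈ cells m n ∧ p.1 + p.2 ≤ l + 2 := by
  unfold sub; rw [mem_filter]

lemma adiag_eq_card (m n l : ℕ) : adiag m n l = (sub m n l).card := rfl

lemma adiag_le (m n l : ℕ) : adiag m n l ≤ m * n := by
  rw [← card_cells]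
  exact card_le_card (filter_subset _ _)

lemma adiag_mono (m n : ℕ) {l l' : ℕ} (h : l ≤ l') : adiag m n l ≤ adiag m n l' := by
  apply card_le_card
  intro p hp
  rw [mem_filter] at hp ⊢
  exact ⟨hp.1, by omega⟩

lemma adiag_eq_sum (m n l : ℕ) : adiag m n l = ∑ i ∈ Ico 1 (m + 1), min n (l + 2 - i) := by
  have hsub : sub m n l ⊆ cells m n := filter_subset _ _
  rw [adiag_eq_card, card_eq_sum_col hsub]
  apply sum_congr rfl
  intro i hi
  rw [mem_Ico] at hi
  have : col n (sub m n l) i = Icc 1 (min n (l + 2 - i)) := by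
    ext j
    rw [mem_col, mem_sub, mem_cells, mem_Icc]
    simp only
    omega
  rw [this, Nat.card_Icc]
  omega

lemma adiag_succ {m n l : ℕ} (hl : l + 2 ≤ m) :
    adiag m n (l + 1) = adiag m n l + min n (l + 2) := by
  rw [adiag_eq_sum, adiag_eq_sum]
  rw [sum_eq_sum_Ico_succ_bot (show 1 < m + 1 by omega)]
  have h1 : ∑ i ∈ Ico (1 + 1) (m + 1), min n (l + 1 + 2 - i) =
      ∑ i ∈ Ico 1 m, min n (l + 2 - i) := by
    rw [← sum_Ico_add' (fun i => min n (l + 1 + 2 - i)) 1 m 1]
    apply sum_congr rfl
    intro i _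
    congr 1
    omega
  rw [h1, sum_Ico_succ_top (show 1 ≤ m by omega)]
  have : min n (l + 2 - m) = 0 := by omega
  rw [this]
  have : l + 1 + 2 - 1 = l + 2 := by omega
  rw [this]
  omega

lemma adiag_zero {m n : ℕ} (hm : 1 ≤ m) (hn : 1 ≤ n) : adiag m n 0 = 1 := by
  rw [adiag_eq_sum, sum_eq_sum_Ico_succ_bot (show 1 < m + 1 by omega)]
  have : ∑ i ∈ Ico (1 + 1) (m + 1), min n (0 + 2 - i) = 0 := by
    apply sum_eq_zero
    intro i hi
    rw [mem_Ico] at hi
    omega
  rw [this]
  omega

lemma adiag_small {m n : ℕ} (hn : 1 ≤ n) (hmn : n ≤ m) :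
    ∀ l, l + 1 ≤ n → adiag m n l = T (l + 1) := by
  intro l
  induction l with
  | zero =>
    intro _
    rw [adiag_zero (by omega) hn]
    rfl
  | succ l ih =>
    intro hl
    rw [adiag_succ (by omega), ih (by omega), T_succ (l + 1)]
    omega

lemma adiag_mid {m n : ℕ} (hn : 1 ≤ n) (hmn : n ≤ m) :
    ∀ G, n + G ≤ m → adiag m n (n - 1 + G) = T (n - 1) + n * (G + 1) := by
  intro G
  induction G with
  | zero =>
    intro _
    rw [add_zero, adiag_small hn hmn (n - 1) (by omega), T_succ (n - 1)]
    omega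
  | succ G ih =>
    intro hG
    have : n - 1 + (G + 1) = n - 1 + G + 1 := rfl
    rw [this, adiag_succ (by omega), ih (by omega)]
    have h1 : n * (G + 1 + 1) = n * (G + 1) + n := by ring
    omega

lemma sum_adiag_small {m n : ℕ} (hn : 1 ≤ n) (hmn : n ≤ m) :
    ∀ k, k ≤ n → ∑ l ∈ range k, adiag m n l = Tet k := by
  intro k
  induction k with
  | zero => intro _; simp [Tet]
  | succ k ih =>
    intro hk
    rw [sum_range_succ, ih (by omega), adiag_small hn hmn k hk, Tet_succ]

lemma sum_adiag {m n : ℕ} (hn : 1 ≤ n) (hmn : n ≤ m) :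
    ∀ G, n - 1 + G ≤ m → ∑ l ∈ range (n - 1 + G), adiag m n l = QD n G := by
  intro G
  induction G with
  | zero =>
    intro _
    rw [add_zero, sum_adiag_small hn hmn (n - 1) (by omega)]
    unfold QD
    have : T 0 = 0 := rfl
    rw [this]
    ring
  | succ G ih =>
    intro hG
    have : n - 1 + (G + 1) = n - 1 + G + 1 := rfl
    rw [this, sum_range_succ, ih (by omega), adiag_mid hn hmn G (by omega)]
    unfold QD
    rw [T_succ]
    ring

lemma adiag_symm {m n l l' : ℕ} (h : l + l' + 3 = m + n) :
    adiag m n l + adiag m n l' = m * n := by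
  have h1 : adiag m n l + ((cells m n).filter (fun p => ¬ (p.1 + p.2 ≤ l + 2))).card = m * n := by
    rw [← card_cells]
    exact card_filter_add_card_filter_not (s := cells m n) (fun p : ℕ × ℕ => p.1 + p.2 ≤ l + 2)
  have h2 : ((cells m n).filter (fun p => ¬ (p.1 + p.2 ≤ l + 2))).card = adiag m n l' := by
    apply card_bij (fun p _ => (m + 1 - p.1, n + 1 - p.2))
    · intro p hp
      rw [mem_filter, mem_cells] at hp
      rw [mem_filter, mem_cells]
      simp only
      omega
    · intro p hp q hq heq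
      rw [mem_filter, mem_cells] at hp hq
      have h3 := (Prod.mk.inj heq).1
      have h4 := (Prod.mk.inj heq).2
      apply Prod.ext <;> omega
    · intro p hp
      rw [mem_filter, mem_cells] at hp
      refine ⟨(m + 1 - p.1, n + 1 - p.2), ?_, ?_⟩
      · rw [mem_filter, mem_cells]
        simp only
        omega
      · apply Prod.ext <;> simp only <;> omega
  omega

lemma adiag_chain (m n : ℕ) : IsNuChain m n (m + n - 2) (adiag m n) := by
  refine ⟨fun l _ => adiag_le m n l, ?_⟩
  intro l _
  have hid : IsIdeal m n (sub m n l) := by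
    refine ⟨filter_subset _ _, ?_⟩
    intro p hp q hq h1 h2
    rw [mem_sub] at hp ⊢
    exact ⟨hq, by omega⟩
  refine (nu_le hid).trans ?_
  apply card_le_card
  intro q hq
  rw [mem_closedNbhd] at hq
  rw [mem_filter]
  refine ⟨hq.1, ?_⟩
  rcases hq.2 with h | ⟨p, hp, hadj⟩
  · rw [mem_sub] at h
    omega
  · rw [mem_sub] at hp
    unfold Adj at hadj
    have h1 := abs_nonneg ((p.1 : ℤ) - q.1)
    have h2 := abs_nonneg ((p.2 : ℤ) - q.2)
    have h3 := neg_abs_le ((p.1 : ℤ) - q.1)
    have h4 := neg_abs_le ((p.2 : ℤ) - q.2)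
    omega

/-- lower bound for the weight of the antidiagonal chain -/
lemma weight_adiag_ge {m n G1 G2 : ℕ} (hn : 1 ≤ n) (hmn : n ≤ m) (hG : m = n + G1 + G2)
    (hG1 : G2 ≤ G1) (hG2 : G1 ≤ G2 + 1) (hmn3 : 3 ≤ m + n) :
    QD n G1 + QD n G2 ≤ weight m n (m + n - 2) (adiag m n) := by
  have hs1 := sum_adiag hn hmn G1 (by omega)
  have hs2 := sum_adiag hn hmn G2 (by omega)
  set ρ := n - 1 + G1 with hρ
  have hw : weight m n (m + n - 2) (adiag m n) =
      ∑ l ∈ range (m + n - 1), min (adiag m n l) (m * n - adiag m n l) := by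
    unfold weight
    rw [show m + n - 2 + 1 = m + n - 1 by omega]
  have hsplit : ∑ l ∈ range (m + n - 1), min (adiag m n l) (m * n - adiag m n l) =
      (∑ l ∈ range ρ, min (adiag m n l) (m * n - adiag m n l) +
      ∑ l ∈ Ico ρ (m + n - 2), min (adiag m n l) (m * n - adiag m n l)) +
      min (adiag m n (m + n - 2)) (m * n - adiag m n (m + n - 2)) := by
    rw [range_eq_Ico, range_eq_Ico, sum_Ico_consecutive _ (Nat.zero_le _) (by omega)]
    rw [← sum_Ico_succ_top (Nat.zero_le _)]
    rw [show m + n - 2 + 1 = m + n - 1 by omega]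
  have hfirst : ∑ l ∈ range ρ, min (adiag m n l) (m * n - adiag m n l) =
      ∑ l ∈ range ρ, adiag m n l := by
    apply sum_congr rfl
    intro l hl
    rw [mem_range] at hl
    have h1 := adiag_symm (m := m) (n := n) (l := l) (l' := m + n - 3 - l) (by omega)
    have h2 := adiag_mono m n (show l ≤ m + n - 3 - l by omega)
    omega
  have hsecond : ∑ l ∈ Ico ρ (m + n - 2), min (adiag m n l) (m * n - adiag m n l) =
      ∑ l ∈ range (n - 1 + G2), adiag m n l := by
    have h1 : ∑ l ∈ Ico ρ (m + n - 2), min (adiag m n l) (m * n - adiag m n l) =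
        ∑ l ∈ Ico ρ (m + n - 2), adiag m n (m + n - 3 - l) := by
      apply sum_congr rfl
      intro l hl
      rw [mem_Ico] at hl
      have h1 := adiag_symm (m := m) (n := n) (l := l) (l' := m + n - 3 - l) (by omega)
      have h2 := adiag_mono m n (show m + n - 3 - l ≤ l by omega)
      omega
    rw [h1, sum_Ico_reflect _ _ (show m + n - 2 ≤ m + n - 3 + 1 by omega), range_eq_Ico]
    congr 1
    congr 1 <;> omega
  rw [hw, hsplit, hfirst, hsecond, hs1, hs2]
  omega

/-! ### upper bound for all chains -/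

lemma nu_low {m n s : ℕ} (hn : 1 ≤ n) (hmn : n ≤ m) (h1 : 1 ≤ s) (hs : 2 * s ≤ m * n) :
    s + min n (Tinv s + 1) ≤ nu m n s := by
  obtain ⟨b, hb, hcase⟩ := nu_bound hn hmn h1 (by omega)
  rw [hb]
  rcases hcase with h | ⟨h2, h3⟩ | h
  · omega
  · rw [← Tinv_le_iff] at h3
    omega
  · by_cases hbn : n ≤ b
    · omega
    · exfalso
      have h4 : T b ≤ T (n - 1) := T_mono (by omega)
      have h5 := two_T (n - 1)
      rw [show n - 1 + 1 = n by omega] at h5
      have h6 : (n - 1) * n + n = n * n := by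
        have : (n - 1) * n + n = (n - 1 + 1) * n := by ring
        rw [this, show n - 1 + 1 = n by omega]
      have h7 : n * n ≤ m * n := Nat.mul_le_mul_right _ hmn
      omega

lemma nu_up {m n s : ℕ} (hn : 1 ≤ n) (hmn : n ≤ m) (hs : m * n < 2 * s) (hs2 : s ≤ m * n) :
    s + min n (Tinv (m * n - s)) ≤ nu m n s := by
  obtain ⟨b, hb, hcase⟩ := nu_bound hn hmn (by omega) hs2
  rw [hb]
  rcases hcase with h | ⟨h2, h3⟩ | h
  · omega
  · by_cases hbn : n ≤ b
    · omega
    · exfalso
      have h4 : T (b - 1) ≤ T (n - 1) := T_mono (by omega)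
      have h5 := two_T (n - 1)
      rw [show n - 1 + 1 = n by omega] at h5
      have h6 : (n - 1) * n + n = n * n := by
        have : (n - 1) * n + n = (n - 1 + 1) * n := by ring
        rw [this, show n - 1 + 1 = n by omega]
      have h7 : n * n ≤ m * n := Nat.mul_le_mul_right _ hmn
      omega
  · have : Tinv (m * n - s) ≤ b := by
      rw [Tinv_le_iff]; omega
    omega

/-- sum over the lower part -/
lemma low_sum {m n L : ℕ} {c : ℕ → ℕ} (hn : 1 ≤ n) (hmn : n ≤ m) (hc : IsNuChain m n L c) :
    ∀ l, l ≤ L → 2 * c l ≤ m * n →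
      ∑ i ∈ range (l + 1), min (c i) (m * n - c i) ≤ S n (c l) := by
  intro l
  induction l with
  | zero =>
    intro _ _
    rw [sum_range_one]
    have := le_S n (c 0)
    omega
  | succ l ih =>
    intro hl h2
    have h3 : nu m n (c l) ≤ c (l + 1) := hc.2 l (by omega)
    have h4 := le_nu (hc.1 l (by omega))
    have h5 := ih (by omega) (by omega)
    rw [sum_range_succ]
    by_cases h0 : c l = 0
    · rw [h0, S_zero] at h5
      have := le_S n (c (l + 1))
      omega
    · have h6 := nu_low hn hmn (show 1 ≤ c l by omega) (by omega)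
      have h7 := S_step_low hn (show 1 ≤ c (l + 1) by omega) (h6.trans h3)
      omega

/-- sum over the upper part -/
lemma up_sum {m n L : ℕ} {c : ℕ → ℕ} (hn : 1 ≤ n) (hmn : n ≤ m) (hc : IsNuChain m n L c) :
    ∀ d l, l + d = L → m * n < 2 * c l →
      ∑ i ∈ Ico l (L + 1), min (c i) (m * n - c i) ≤ S n (m * n - c l) := by
  intro d
  induction d with
  | zero =>
    intro l hl _
    have : l = L := by omega
    subst this
    rw [sum_eq_sum_Ico_succ_bot (by omega), Ico_self, sum_empty]
    have := le_S n (m * n - c l)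
    omega
  | succ d ih =>
    intro l hl h2
    have h3 : nu m n (c l) ≤ c (l + 1) := hc.2 l (by omega)
    have h4 := le_nu (hc.1 l (by omega))
    have h5 := ih (l + 1) (by omega) (by omega)
    have h8 := hc.1 (l + 1) (by omega)
    rw [sum_eq_sum_Ico_succ_bot (by omega)]
    by_cases h0 : m * n - c l = 0
    · have : m * n - c (l + 1) = 0 := by omega
      rw [this, S_zero] at h5
      rw [h0, S_zero]
      omega
    · have h6 := nu_up hn hmn h2 (hc.1 l (by omega))
      have h7 := S_step_up (n := n) (u := m * n - c l) (u' := m * n - c (l + 1)) hn (by omega)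
        (by omega)
      omega

theorem slowest_chain {m n : ℕ} (hn : 1 ≤ n) (hmn : n ≤ m) {L : ℕ} {c : ℕ → ℕ}
    (hc : IsNuChain m n L c) : weight m n L c ≤ weight m n (m + n - 2) (adiag m n) := by
  by_cases hm1 : m = 1
  · -- the one-cell grid
    have hn1 : n = 1 := by omega
    subst hm1
    subst hn1
    have : weight 1 1 L c = 0 := by
      unfold weight
      apply sum_eq_zero
      intro l hl
      rw [mem_range] at hl
      have := hc.1 l (by omega)
      omega
    omega
  · obtain ⟨G1, G2, hG, hG1, hG2⟩ : ∃ G1 G2, m = n + G1 + G2 ∧ G2 ≤ G1 ∧ G1 ≤ G2 + 1 :=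
      ⟨(m - n + 1) / 2, (m - n) / 2, by omega, by omega, by omega⟩
    refine le_trans ?_ (weight_adiag_ge hn hmn hG hG1 hG2 (by omega))
    have hmn2 : 2 * n ≤ m * n := Nat.mul_le_mul_right _ (by omega)
    unfold weight
    by_cases hall : 2 * c L ≤ m * n
    · have h1 := low_sum hn hmn hc L le_rfl hall
      have h2 := key_ineq (x := c L) (u := 0) hn hmn hG hG1 hG2 hall (by omega) (by omega)
      rw [S_zero] at h2
      omega
    · -- the first index in the upper half
      have hex : ∃ l, m * n < 2 * c l := ⟨L, by omega⟩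
      set l0 := Nat.find hex with hl0
      have hl0spec : m * n < 2 * c l0 := Nat.find_spec hex
      have hl0L : l0 ≤ L := Nat.find_min' hex (by omega)
      have hup := up_sum hn hmn hc (L - l0) l0 (by omega) hl0spec
      by_cases h0 : l0 = 0
      · rw [h0] at hup hl0spec
        rw [range_eq_Ico]
        have h2 := key_ineq (x := 0) (u := m * n - c 0) hn hmn hG hG1 hG2 (by omega) (by omega)
          (by omega)
        rw [S_zero] at h2
        omega
      · obtain ⟨l1, hl1⟩ : ∃ l1, l0 = l1 + 1 := ⟨l0 - 1, by omega⟩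
        have hl1low : 2 * c l1 ≤ m * n := by
          have := Nat.find_min hex (show l1 < Nat.find hex by omega)
          omega
        have hlow := low_sum hn hmn hc l1 (by omega) hl1low
        have hsum : ∑ l ∈ range (L + 1), min (c l) (m * n - c l) =
            ∑ l ∈ range (l1 + 1), min (c l) (m * n - c l) +
            ∑ l ∈ Ico l0 (L + 1), min (c l) (m * n - c l) := by
          rw [range_eq_Ico, range_eq_Ico, hl1, sum_Ico_consecutive _ (Nat.zero_le _) (by omega)]
        rw [hsum]
        have hstep : nu m n (c l1) ≤ c (l1 + 1) := hc.2 l1 (by omega)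
        rw [← hl1] at hstep
        have hl0le := hc.1 l0 hl0L
        have hxu : c l1 + (m * n - c l0) + n ≤ m * n := by
          by_cases hz : c l1 = 0
          · omega
          · have h6 := nu_low hn hmn (show 1 ≤ c l1 by omega) hl1low
            by_cases hbig : n ≤ Tinv (c l1) + 1
            · omega
            · -- `c l1` is small
              have h7 : c l1 ≤ T (n - 2) := by
                rw [← Tinv_le_iff]; omega
              have h8 := two_T (n - 2)
              have h9 : n = (n - 2) + 2 := by omega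
              obtain ⟨n', hn'⟩ : ∃ n', n' = n - 2 := ⟨_, rfl⟩
              rw [← hn'] at h7 h8 h9
              have h10 : n * n ≤ m * n := Nat.mul_le_mul_right _ hmn
              have h11 : n * n = n' * (n' + 1) + 3 * n' + 4 := by rw [h9]; ring
              omega
        have h2 := key_ineq (x := c l1) (u := m * n - c l0) hn hmn hG hG1 hG2 hl1low (by omega)
          hxu
        omega

end SlowChain
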