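import Pool.Agent.SlowChain.Iso

set_option autoImplicit false

namespace SlowChain

open Finset

/-- column `i` of a set of cells -/
def col (n : ℕ) (B : Finset (ℕ × ℕ)) (i : ℕ) : Finset ℕ :=
  (Icc 1 n).filter (fun j => (i, j) ∈ B)

lemma mem_cells {m n : ℕ} {p : ℕ × ℕ} :
    p ∈ cells m n ↔ (1 ≤ p.1 ∧ p.1 ≤ m) ∧ (1 ≤ p.2 ∧ p.2 ≤ n) := by
  unfold cells
  rw [mem_product, mem_Icc, mem_Icc]

lemma card_cells (m n : ℕ) : (cells m n).card = m * n := by
  unfold cells
  rw [card_product, Nat.card_Icc, Nat.card_Icc]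
  simp

lemma mem_col {n : ℕ} {B : Finset (ℕ × ℕ)} {i j : ℕ} :
    j ∈ col n B i ↔ (1 ≤ j ∧ j ≤ n) ∧ (i, j) ∈ B := by
  unfold col
  rw [mem_filter, mem_Icc]

lemma card_eq_sum_col {m n : ℕ} {B : Finset (ℕ × ℕ)} (hB : B ⊆ cells m n) :
    B.card = ∑ i ∈ Ico 1 (m + 1), (col n B i).card := by
  rw [card_eq_sum_card_fiberwise (f := Prod.fst) (t := Ico 1 (m + 1))]
  · apply sum_congr rfl
    intro i hi
    rw [← card_image_of_injective (col n B i) (f := fun j => (i, j))
      (fun a b hab => (Prod.mk.inj hab).2)]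
    congr 1
    ext ⟨x, y⟩
    rw [mem_filter, mem_image]
    constructor
    · rintro ⟨hB', hx⟩
      have h1 := mem_cells.mp (hB hB')
      refine ⟨y, ?_, ?_⟩
      · rw [mem_col]
        refine ⟨h1.2, ?_⟩
        have : x = i := hx
        rw [← this]; exact hB'
      · have : x = i := hx
        rw [this]
    · rintro ⟨j, hj, heq⟩
      rw [mem_col] at hj
      rw [← heq]
      exact ⟨hj.2, rfl⟩
  · intro p hp
    have := mem_cells.mp (hB hp)
    rw [mem_coe, mem_Ico]
    omega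

lemma closedNbhd_subset (m n : ℕ) (A : Finset (ℕ × ℕ)) : closedNbhd m n A ⊆ cells m n := by
  intro q hq
  simp only [closedNbhd, mem_filter] at hq
  exact hq.1

lemma mem_closedNbhd {m n : ℕ} {A : Finset (ℕ × ℕ)} {q : ℕ × ℕ} :
    q ∈ closedNbhd m n A ↔ q ∈ cells m n ∧ (q ∈ A ∨ ∃ p ∈ A, Adj p q) := by
  simp only [closedNbhd, mem_filter]

lemma col_eq_Icc {m n : ℕ} {A : Finset (ℕ × ℕ)} (hA : IsIdeal m n A) (i : ℕ) :
    col n A i = Icc 1 (col n A i).card := by
  have hdown : ∀ j ∈ col n A i, ∀ j', 1 ≤ j' → j' ≤ j → j' ∈ col n A i := by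
    intro j hj j' h1 h2
    rw [mem_col] at hj ⊢
    have hc := mem_cells.mp (hA.1 hj.2)
    refine ⟨⟨h1, by omega⟩, ?_⟩
    apply hA.2 (i, j) hj.2 (i, j')
    · rw [mem_cells]
      exact ⟨hc.1, h1, by have := hc.2.2; simp only at this ⊢; omega⟩
    · exact le_rfl
    · exact h2
  apply eq_of_subset_of_card_le
  · intro j hj
    rw [mem_Icc]
    refine ⟨(mem_col.mp hj).1.1, ?_⟩
    have hsub : Icc 1 j ⊆ col n A i := by
      intro j' hj'
      rw [mem_Icc] at hj'
      exact hdown j hj j' hj'.1 hj'.2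
    have := card_le_card hsub
    rw [Nat.card_Icc] at this
    omega
  · rw [Nat.card_Icc]
    omega

lemma adj_right (i j : ℕ) : Adj (i, j) (i + 1, j) := by
  unfold Adj
  push_cast
  simp

lemma adj_up (i j : ℕ) : Adj (i, j) (i, j + 1) := by
  unfold Adj
  push_cast
  simp

/-- the isoperimetric inequality for order ideals -/
lemma iso_ideal {m n : ℕ} (hn1 : 1 ≤ n) (hmn : n ≤ m) {A : Finset (ℕ × ℕ)} (hA : IsIdeal m n A)
    (hs : 1 ≤ A.card) :
    ∃ b, (closedNbhd m n A).card = A.card + b ∧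
      (n ≤ b ∨ (1 ≤ b ∧ A.card ≤ T (b - 1)) ∨ m * n ≤ A.card + T b) := by
  set N := closedNbhd m n A with hN
  set h : ℕ → ℕ := fun i => (col n A i).card with hh
  set g : ℕ → ℕ := fun i => (col n N i).card with hg
  have hAN : ∀ p ∈ A, p ∈ N := by
    intro p hp
    rw [hN, mem_closedNbhd]
    exact ⟨hA.1 hp, Or.inl hp⟩
  have hgh : ∀ i, h i ≤ g i := by
    intro i
    apply card_le_card
    intro j hj
    rw [mem_col] at hj ⊢
    exact ⟨hj.1, hAN _ hj.2⟩
  set β : ℕ → ℕ := fun i => g i - h i with hβ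
  have hsumA : A.card = ∑ i ∈ Ico 1 (m + 1), h i := card_eq_sum_col hA.1
  have hsumN : N.card = ∑ i ∈ Ico 1 (m + 1), h i + ∑ i ∈ Ico 1 (m + 1), β i := by
    rw [card_eq_sum_col (closedNbhd_subset m n A), ← sum_add_distrib]
    apply sum_congr rfl
    intro i _
    have h5 := hgh i
    have h6 : (col n (closedNbhd m n A) i).card = g i := rfl
    have h7 : β i = g i - h i := rfl
    omega
  refine ⟨∑ i ∈ Ico 1 (m + 1), β i, by rw [hsumN, hsumA], ?_⟩
  rw [hsumA]
  apply iso_num hn1 hmn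
  · -- antitone
    intro i h1 h2
    apply card_le_card
    intro j hj
    rw [mem_col] at hj ⊢
    refine ⟨hj.1, ?_⟩
    apply hA.2 (i + 1, j) hj.2 (i, j)
    · rw [mem_cells]
      exact ⟨⟨h1, by simp only; omega⟩, hj.1⟩
    · simp
    · exact le_rfl
  · intro i h1 h2 h3 h4
    have hcol := col_eq_Icc hA i
    have hmem : (i, h i) ∈ A := by
      have : h i ∈ col n A i := by
        rw [hcol, mem_Icc]
        exact ⟨h3, le_rfl⟩
      exact (mem_col.mp this).2
    have hnew : h i + 1 ∈ col n N i := by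
      rw [mem_col]
      refine ⟨⟨by omega, by omega⟩, ?_⟩
      rw [hN, mem_closedNbhd, mem_cells]
      exact ⟨⟨⟨h1, h2⟩, by simp only; omega, by simp only; omega⟩, Or.inr ⟨_, hmem, adj_up _ _⟩⟩
    have hnot : h i + 1 ∉ col n A i := by
      intro hcon
      rw [hcol, mem_Icc] at hcon
      have := hcon.2
      simp only [hh] at this
      omega
    have hsub : insert (h i + 1) (col n A i) ⊆ col n N i := by
      intro j hj
      rw [mem_insert] at hj
      rcases hj with rfl | hj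
      · exact hnew
      · rw [mem_col] at hj ⊢
        exact ⟨hj.1, hAN _ hj.2⟩
    have := card_le_card hsub
    rw [card_insert_of_notMem hnot] at this
    simp only [hβ, hg, hh] at this ⊢
    omega
  · intro i h1 h2
    have : h i ≤ g (i + 1) := by
      apply card_le_card
      intro j hj
      rw [mem_col] at hj ⊢
      refine ⟨hj.1, ?_⟩
      rw [hN, mem_closedNbhd, mem_cells]
      exact ⟨⟨⟨by simp only; omega, by simp only; omega⟩, hj.1⟩, Or.inr ⟨_, hj.2, adj_right _ _⟩⟩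
    have h3 := hgh (i + 1)
    simp only [hβ]
    omega
  · intro i
    have : (col n A i).card ≤ (Icc 1 n).card := card_le_card (filter_subset _ _)
    rw [Nat.card_Icc] at this
    simp only [hh]
    omega
  · rw [← hsumA]; exact hs

/-- there is an order ideal of every size -/
lemma exists_ideal (m n : ℕ) : ∀ s ≤ m * n, ∃ A, IsIdeal m n A ∧ A.card = s := by
  intro s
  induction s with
  | zero =>
    intro _
    refine ⟨∅, ⟨empty_subset _, ?_⟩, card_empty⟩
    intro p hp
    simp at hp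
  | succ s ih =>
    intro hs
    obtain ⟨A, hA, hcard⟩ := ih (by omega)
    have hne : (cells m n \ A).Nonempty := by
      rw [← card_pos, card_sdiff_of_subset hA.1, card_cells]
      omega
    obtain ⟨q, hq, hmin⟩ := exists_min_image (cells m n \ A) (fun p => p.1 + p.2) hne
    rw [mem_sdiff] at hq
    refine ⟨insert q A, ⟨?_, ?_⟩, by rw [card_insert_of_notMem hq.2, hcard]⟩
    · intro p hp
      rw [mem_insert] at hp
      rcases hp with rfl | hp
      · exact hq.1
      · exact hA.1 hp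
    · intro p hp r hr h1 h2
      rw [mem_insert] at hp ⊢
      rcases hp with rfl | hp
      · by_cases hrp : r = p
        · exact Or.inl hrp
        · right
          by_contra hcon
          have h3 := hmin r (by rw [mem_sdiff]; exact ⟨hr, hcon⟩)
          apply hrp
          apply Prod.ext
          · omega
          · omega
      · exact Or.inr (hA.2 p hp r hr h1 h2)

lemma nu_spec {m n s : ℕ} (hs : s ≤ m * n) :
    ∃ A, IsIdeal m n A ∧ A.card = s ∧ (closedNbhd m n A).card = nu m n s := by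
  have hne : {t : ℕ | ∃ A : Finset (ℕ × ℕ), IsIdeal m n A ∧ A.card = s ∧
      (closedNbhd m n A).card = t}.Nonempty := by
    obtain ⟨A, hA, hc⟩ := exists_ideal m n s hs
    exact ⟨_, A, hA, hc, rfl⟩
  exact Nat.sInf_mem hne

lemma nu_le {m n : ℕ} {A : Finset (ℕ × ℕ)} (hA : IsIdeal m n A) :
    nu m n A.card ≤ (closedNbhd m n A).card :=
  Nat.sInf_le ⟨A, hA, rfl, rfl⟩

lemma le_nu {m n s : ℕ} (hs : s ≤ m * n) : s ≤ nu m n s := by
  obtain ⟨A, hA, hc, hN⟩ := nu_spec hs
  rw [← hN, ← hc]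
  apply card_le_card
  intro p hp
  rw [mem_closedNbhd]
  exact ⟨hA.1 hp, Or.inl hp⟩

lemma nu_bound {m n s : ℕ} (hn1 : 1 ≤ n) (hmn : n ≤ m) (h1 : 1 ≤ s) (hs : s ≤ m * n) :
    ∃ b, nu m n s = s + b ∧
      (n ≤ b ∨ (1 ≤ b ∧ s ≤ T (b - 1)) ∨ m * n ≤ s + T b) := by
  obtain ⟨A, hA, hc, hN⟩ := nu_spec hs
  obtain ⟨b, hb1, hb2⟩ := iso_ideal hn1 hmn hA (by omega)
  refine ⟨b, by rw [← hN, hb1, hc], ?_⟩
  rw [← hc]
  exact hb2

end SlowChain
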