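import Pool.Agent.SlowChain.Defs

set_option autoImplicit false

namespace SlowChain

open Finset

/-- triangular numbers -/
def T : ℕ → ℕ
  | 0 => 0
  | k + 1 => T k + (k + 1)

lemma T_succ (k : ℕ) : T (k + 1) = T k + (k + 1) := rfl

lemma two_T (k : ℕ) : 2 * T k = k * (k + 1) := by
  induction k with
  | zero => rfl
  | succ k ih => rw [T_succ]; nlinarith

lemma T_mono {a b : ℕ} (h : a ≤ b) : T a ≤ T b := by
  induction h with
  | refl => exact le_rfl
  | step _ ih => exact ih.trans (by rw [T_succ]; omega)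

lemma T_add (a b : ℕ) : T (a + b) = T a + T b + a * b := by
  have h1 := two_T (a + b)
  have h2 := two_T a
  have h3 := two_T b
  nlinarith

/-! ### numeric form of the isoperimetric inequality

`h i` is the height of column `i`, `h i + β i` the height of column `i` of the closed
neighbourhood. -/

/-- the case of an ideal that does not reach the top row, nor the last column -/
lemma iso_low {h β : ℕ → ℕ} {m n : ℕ} (hant : ∀ i, 1 ≤ i → i < m → h (i + 1) ≤ h i)
    (hβ1 : ∀ i, 1 ≤ i → i ≤ m → 1 ≤ h i → h i < n → 1 ≤ β i)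
    (hβ2 : ∀ i, 1 ≤ i → i < m → h i ≤ h (i + 1) + β (i + 1))
    (hm0 : h m = 0) (hn : ∀ i, 1 ≤ i → i ≤ m → h i < n) :
    ∀ d i, i + d = m → 1 ≤ i →
      h i ≤ ∑ k ∈ Ico (i + 1) (m + 1), β k ∧
      ∑ k ∈ Ico i (m + 1), h k ≤ T (∑ k ∈ Ico (i + 1) (m + 1), β k) := by
  intro d
  induction d with
  | zero =>
    intro i hi _
    have : i = m := by omega
    subst this
    rw [Ico_self, sum_empty, hm0, sum_eq_sum_Ico_succ_bot (by omega), Ico_self, sum_empty, hm0]
    exact ⟨le_rfl, Nat.zero_le _⟩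
  | succ d ih =>
    intro i hi h1i
    obtain ⟨ih1, ih2⟩ := ih (i + 1) (by omega) (by omega)
    have e1 : ∑ k ∈ Ico (i + 1) (m + 1), β k = β (i + 1) + ∑ k ∈ Ico (i + 1 + 1) (m + 1), β k :=
      sum_eq_sum_Ico_succ_bot (by omega) _
    have e2 : ∑ k ∈ Ico i (m + 1), h k = h i + ∑ k ∈ Ico (i + 1) (m + 1), h k :=
      sum_eq_sum_Ico_succ_bot (by omega) _
    have h2 := hβ2 i h1i (by omega)
    set B := ∑ k ∈ Ico (i + 1 + 1) (m + 1), β k with hB
    refine ⟨by omega, ?_⟩
    rw [e1, e2]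
    by_cases h0 : h i = 0
    · rw [h0, zero_add]
      exact ih2.trans (T_mono (by omega))
    · have hb1 : 1 ≤ β (i + 1) := by
        by_cases h0' : h (i + 1) = 0
        · omega
        · exact hβ1 (i + 1) (by omega) (by omega) (by omega) (hn _ (by omega) (by omega))
      have h3 : T (B + 1) ≤ T (β (i + 1) + B) := T_mono (by omega)
      obtain ⟨b', hb'⟩ : ∃ b', β (i + 1) = b' + 1 := ⟨β (i + 1) - 1, by omega⟩
      rw [hb']
      have e3 : b' + 1 + B = (b' + B) + 1 := by ring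
      rw [e3, T_succ]
      have h4 : T B ≤ T (b' + B) := T_mono (by omega)
      omega

/-- the case of an ideal that reaches the top row and the last column -/
lemma iso_high {h β : ℕ → ℕ} {m n : ℕ}
    (hβ1 : ∀ i, 1 ≤ i → i ≤ m → 1 ≤ h i → h i < n → 1 ≤ β i)
    (hβ2 : ∀ i, 1 ≤ i → i < m → h i ≤ h (i + 1) + β (i + 1))
    (h1 : h 1 = n) (hpos : ∀ i, 1 ≤ i → i ≤ m → 1 ≤ h i) (hle : ∀ i, h i ≤ n) :
    ∀ d, d + 1 ≤ m →
      n ≤ h (d + 1) + ∑ k ∈ Ico 2 (d + 2), β k ∧
      n * (d + 1) ≤ ∑ k ∈ Ico 1 (d + 2), h k + T (∑ k ∈ Ico 2 (d + 2), β k) := by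
  intro d
  induction d with
  | zero =>
    intro _
    simp [h1]
  | succ d ih =>
    intro hd
    obtain ⟨ih1, ih2⟩ := ih (by omega)
    have e1 : ∑ k ∈ Ico 2 (d + 1 + 2), β k = ∑ k ∈ Ico 2 (d + 2), β k + β (d + 2) :=
      sum_Ico_succ_top (by omega) _
    have e2 : ∑ k ∈ Ico 1 (d + 1 + 2), h k = ∑ k ∈ Ico 1 (d + 2), h k + h (d + 2) :=
      sum_Ico_succ_top (by omega) _
    have h2 := hβ2 (d + 1) (by omega) (by omega)
    have e4 : d + 1 + 1 = d + 2 := rfl
    rw [e4] at h2 ⊢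
    rw [e1, e2]
    set B := ∑ k ∈ Ico 2 (d + 2), β k with hB
    refine ⟨by omega, ?_⟩
    have e5 : n * (d + 2) = n * (d + 1) + n := by ring
    by_cases hn' : h (d + 2) = n
    · have : T B ≤ T (B + β (d + 2)) := T_mono (by omega)
      omega
    · have hb1 : 1 ≤ β (d + 2) :=
        hβ1 (d + 2) (by omega) (by omega) (hpos _ (by omega) (by omega))
          (by have := hle (d + 2); omega)
      obtain ⟨b', hb'⟩ : ∃ b', β (d + 2) = b' + 1 := ⟨β (d + 2) - 1, by omega⟩
      rw [hb'] at h2 ⊢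
      have e3 : B + (b' + 1) = (B + b') + 1 := by ring
      rw [e3, T_succ]
      have h4 : T B ≤ T (B + b') := T_mono (by omega)
      omega

/-- the numeric isoperimetric inequality -/
lemma iso_num {h β : ℕ → ℕ} {m n : ℕ} (hn1 : 1 ≤ n) (hmn : n ≤ m)
    (hant : ∀ i, 1 ≤ i → i < m → h (i + 1) ≤ h i)
    (hβ1 : ∀ i, 1 ≤ i → i ≤ m → 1 ≤ h i → h i < n → 1 ≤ β i)
    (hβ2 : ∀ i, 1 ≤ i → i < m → h i ≤ h (i + 1) + β (i + 1))
    (hle : ∀ i, h i ≤ n) (hs : 1 ≤ ∑ k ∈ Ico 1 (m + 1), h k) :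
    n ≤ ∑ k ∈ Ico 1 (m + 1), β k ∨
      (1 ≤ ∑ k ∈ Ico 1 (m + 1), β k ∧
        ∑ k ∈ Ico 1 (m + 1), h k ≤ T (∑ k ∈ Ico 1 (m + 1), β k - 1)) ∨
      m * n ≤ ∑ k ∈ Ico 1 (m + 1), h k + T (∑ k ∈ Ico 1 (m + 1), β k) := by
  have hanti : ∀ d i, 1 ≤ i → i + d ≤ m → h (i + d) ≤ h i := by
    intro d
    induction d with
    | zero => intro i _ _; exact le_rfl
    | succ d ih =>
      intro i h1 h2
      exact (hant (i + d) (by omega) (by omega)).trans (ih i h1 (by omega))
  have h1max : ∀ i, 1 ≤ i → i ≤ m → h i ≤ h 1 := by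
    intro i h1 h2
    have := hanti (i - 1) 1 le_rfl (by omega)
    rwa [show 1 + (i - 1) = i by omega] at this
  have hmmin : ∀ i, 1 ≤ i → i ≤ m → h m ≤ h i := by
    intro i h1 h2
    have := hanti (m - i) i h1 (by omega)
    rwa [show i + (m - i) = m by omega] at this
  have h1pos : 1 ≤ h 1 := by
    by_contra hcon
    have : ∑ k ∈ Ico 1 (m + 1), h k = 0 := by
      apply sum_eq_zero
      intro k hk
      rw [mem_Ico] at hk
      have := h1max k hk.1 (by omega)
      omega
    omega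
  have esplit : ∑ k ∈ Ico 1 (m + 1), β k = β 1 + ∑ k ∈ Ico 2 (m + 1), β k :=
    sum_eq_sum_Ico_succ_bot (by omega) _
  by_cases c1 : h 1 = n
  · by_cases c2 : h m = 0
    · -- top row and not last column
      left
      have key : ∀ d, d + 1 ≤ m → n ≤ h (d + 1) + ∑ k ∈ Ico 2 (d + 2), β k := by
        intro d
        induction d with
        | zero => intro _; simp [c1]
        | succ d ih =>
          intro hd
          have ih1 := ih (by omega)
          have e1 : ∑ k ∈ Ico 2 (d + 1 + 2), β k = ∑ k ∈ Ico 2 (d + 2), β k + β (d + 2) :=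
            sum_Ico_succ_top (by omega) _
          have h2 := hβ2 (d + 1) (by omega) (by omega)
          have e4 : d + 1 + 1 = d + 2 := rfl
          rw [e4] at h2 ⊢
          rw [e1]
          omega
      have := key (m - 1) (by omega)
      rw [show m - 1 + 1 = m by omega, show m - 1 + 2 = m + 1 by omega, c2] at this
      omega
    · right; right
      have := iso_high hβ1 hβ2 c1 (fun i h1 h2 => by have := hmmin i h1 h2; omega) hle
        (m - 1) (by omega)
      rw [show m - 1 + 1 = m by omega, show m - 1 + 2 = m + 1 by omega] at this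
      have h3 : T (∑ k ∈ Ico 2 (m + 1), β k) ≤ T (∑ k ∈ Ico 1 (m + 1), β k) :=
        T_mono (by omega)
      rw [mul_comm]
      omega
  · have hlt : ∀ i, 1 ≤ i → i ≤ m → h i < n := by
      intro i h1 h2
      have h3 := h1max i h1 h2
      have h4 := hle 1
      omega
    by_cases c2 : h m = 0
    · right; left
      have := iso_low hant hβ1 hβ2 c2 hlt (m - 1) 1 (by omega) le_rfl
      have hb1 : 1 ≤ β 1 := hβ1 1 le_rfl (by omega) h1pos (hlt 1 le_rfl (by omega))
      refine ⟨by omega, this.2.trans (T_mono ?_)⟩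
      have e : ∑ k ∈ Ico (1 + 1) (m + 1), β k = ∑ k ∈ Ico 2 (m + 1), β k := rfl
      omega
    · left
      have : ∑ _k ∈ Ico 1 (m + 1), 1 ≤ ∑ k ∈ Ico 1 (m + 1), β k := by
        apply sum_le_sum
        intro k hk
        rw [mem_Ico] at hk
        exact hβ1 k hk.1 (by omega) (by have := hmmin k hk.1 (by omega); omega)
          (hlt k hk.1 (by omega))
      rw [sum_const, Nat.card_Ico, smul_eq_mul, mul_one] at this
      omega

end SlowChain
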