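import Pool.Agent.SlowChain.Num

set_option autoImplicit false

namespace SlowChain

open Finset

lemma key_int {n m G G' t t' G1 G2 a TG TG' Tt Tt' T1 T2 : ℤ}
    (h1 : 2 * a = n * (n - 1)) (hTG : 2 * TG = G * (G + 1)) (hTG' : 2 * TG' = G' * (G' + 1))
    (hTt : 2 * Tt = t * (t + 1)) (hTt' : 2 * Tt' = t' * (t' + 1))
    (hT1 : 2 * T1 = G1 * (G1 + 1)) (hT2 : 2 * T2 = G2 * (G2 + 1))
    (hn : 1 ≤ n) (ht1 : 1 ≤ t) (ht2 : t ≤ n) (ht1' : 1 ≤ t') (ht2' : t' ≤ n)
    (hm : m = n + G1 + G2) (hG1 : G2 ≤ G1) (hG2 : G1 ≤ G2 + 1)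
    (hsum : 2 * a + n * (G + G') + t + t' = m * n + n)
    (hd1 : n * (G - G') + (t - t') ≤ n) (hd2 : -n < n * (G - G') + (t - t')) :
    G * a + n * TG + t * G + Tt + (G' * a + n * TG' + t' * G' + Tt') ≤
      G1 * a + n * T1 + (G2 * a + n * T2) + (m * n + n) := by
  -- the factor `k`
  have hk : n * (G1 + G2 + 2 - (G + G')) = t + t' := by
    rw [hm] at hsum
    linear_combination h1 - hsum
  obtain ⟨k, hkdef⟩ : ∃ k, k = G1 + G2 + 2 - (G + G') := ⟨_, rfl⟩
  rw [← hkdef] at hk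
  have hk1 : 1 ≤ k := by
    by_contra hcon
    have : k ≤ 0 := by omega
    nlinarith
  have hk2 : k ≤ 2 := by
    by_contra hcon
    have : 3 ≤ k := by omega
    nlinarith
  obtain ⟨g, hg⟩ : ∃ g, g = G - G' := ⟨_, rfl⟩
  rw [← hg] at hd1 hd2
  have hg1 : g ≤ 1 := by
    by_contra hcon
    have : 2 ≤ g := by omega
    nlinarith
  have hg2 : -1 ≤ g := by
    by_contra hcon
    have : g ≤ -2 := by omega
    nlinarith
  have hk' : k = 1 ∨ k = 2 := by omega
  rcases hk' with hk' | hk'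
  · rw [hk'] at hk hkdef
    have ht : t' = n - t := by linarith
    have htn : 1 ≤ n - t := by omega
    have hcase : (G = G1 ∧ G' = G1 ∧ G2 = G1 - 1) ∨ (G = G1 + 1 ∧ G' = G1 ∧ G2 = G1) ∨
        (G = G1 ∧ G' = G1 + 1 ∧ G2 = G1) := by omega
    rcases hcase with ⟨e1, e2, e3⟩ | ⟨e1, e2, e3⟩ | ⟨e1, e2, e3⟩
    · rw [e1] at hTG
      rw [e2] at hTG'
      rw [e3] at hT2 hm ⊢
      rw [e1, e2, hm, ht]
      rw [ht] at hTt'
      have e : 2 * (G1 * a + n * T1 + ((G1 - 1) * a + n * T2) + ((n + G1 + (G1 - 1)) * n + n)) -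
          2 * (G1 * a + n * TG + t * G1 + Tt + (G1 * a + n * TG' + (n - t) * G1 + Tt')) =
          2 * (t * (n - t)) := by
        linear_combination n * hT1 + n * hT2 - n * hTG - n * hTG' - hTt - hTt' - h1
      have : 0 ≤ t * (n - t) := mul_nonneg (by omega) (by omega)
      linarith
    · rw [e1] at hTG
      rw [e2] at hTG'
      rw [e3] at hT2 hm ⊢
      rw [e1, e2, hm, ht]
      rw [ht] at hTt'
      have e : 2 * (G1 * a + n * T1 + (G1 * a + n * T2) + ((n + G1 + G1) * n + n)) -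
          2 * ((G1 + 1) * a + n * TG + t * (G1 + 1) + Tt +
            (G1 * a + n * TG' + (n - t) * G1 + Tt')) =
          2 * (t * (n - t - 1)) := by
        linear_combination n * hT1 + n * hT2 - n * hTG - n * hTG' - hTt - hTt' - h1
      have : 0 ≤ t * (n - t - 1) := mul_nonneg (by omega) (by omega)
      linarith
    · rw [e1] at hTG
      rw [e2] at hTG'
      rw [e3] at hT2 hm ⊢
      rw [e1, e2, hm, ht]
      rw [ht] at hTt'
      have e : 2 * (G1 * a + n * T1 + (G1 * a + n * T2) + ((n + G1 + G1) * n + n)) -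
          2 * (G1 * a + n * TG + t * G1 + Tt +
            ((G1 + 1) * a + n * TG' + (n - t) * (G1 + 1) + Tt')) =
          2 * ((n - t) * (t - 1)) := by
        linear_combination n * hT1 + n * hT2 - n * hTG - n * hTG' - hTt - hTt' - h1
      have : 0 ≤ (n - t) * (t - 1) := mul_nonneg (by omega) (by omega)
      linarith
  · rw [hk'] at hk hkdef
    have ht : t = n := by omega
    have ht' : t' = n := by omega
    rw [ht] at hTt hd1 hd2 ⊢
    rw [ht'] at hTt' hd1 hd2 ⊢
    have hg3 : 0 ≤ g := by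
      by_contra hcon
      have : g ≤ -1 := by omega
      nlinarith
    have hcase : G = G1 ∧ G' = G2 := by omega
    obtain ⟨e1, e2⟩ := hcase
    rw [e1] at hTG ⊢
    rw [e2] at hTG' ⊢
    rw [hm]
    have e : 2 * (G1 * a + n * T1 + (G2 * a + n * T2) + ((n + G1 + G2) * n + n)) -
        2 * (G1 * a + n * TG + n * G1 + Tt + (G2 * a + n * TG' + n * G2 + Tt')) = 0 := by
      linear_combination n * hT1 + n * hT2 - n * hTG - n * hTG' - hTt - hTt'
    linarith

/-- partial sums of the antidiagonal sizes, closed form -/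
def QD (n G : ℕ) : ℕ := Tet (n - 1) + G * T (n - 1) + n * T G

lemma two_T_int (k : ℕ) : 2 * ((T k : ℕ) : ℤ) = (k : ℤ) * ((k : ℤ) + 1) := by
  have := two_T k
  exact_mod_cast this

lemma rep_of_gt {n y : ℕ} (hn : 1 ≤ n) (hy : T (n - 1) < y) :
    ∃ G t, y = T (n - 1) + n * G + t ∧ 1 ≤ t ∧ t ≤ n := by
  refine ⟨(y - T (n - 1) - 1) / n, (y - T (n - 1) - 1) % n + 1, ?_, by omega, ?_⟩
  · have := Nat.div_add_mod (y - T (n - 1) - 1) n
    omega
  · have := Nat.mod_lt (y - T (n - 1) - 1) (show 0 < n by omega)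
    omega

lemma S_shift {n x : ℕ} (hn : 1 ≤ n) (hy : T (n - 1) < x + n) : S n (x + n) = x + n + S n x := by
  have hlt : ¬ (Tinv (x + n) ≤ n - 1) := by
    rw [Tinv_le_iff]; omega
  have hp : pr n (x + n) = x := by
    unfold pr; omega
  rw [S_pos (by omega), hp]

/-- the key inequality, equality case -/
lemma key_eq {m n x u G1 G2 : ℕ} (hn : 1 ≤ n) (hmn : n ≤ m) (hG : m = n + G1 + G2)
    (hG1 : G2 ≤ G1) (hG2 : G1 ≤ G2 + 1) (hx : 2 * x ≤ m * n) (hu : 2 * u < m * n)
    (hxu : x + u + n = m * n) : S n x + S n u ≤ QD n G1 + QD n G2 := by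
  have hT : 2 * T (n - 1) = (n - 1) * n := by
    have := two_T (n - 1)
    rwa [show n - 1 + 1 = n by omega] at this
  have hnn : (n - 1) * n + n = n * n := by
    have : (n - 1) * n + n = (n - 1 + 1) * n := by ring
    rw [this, show n - 1 + 1 = n by omega]
  have hmn2 : n * n ≤ m * n := Nat.mul_le_mul_right _ hmn
  have hnpos : 1 ≤ n * n := Nat.mul_pos hn hn
  have hy : T (n - 1) < x + n := by omega
  have hy' : T (n - 1) < u + n := by omega
  have hS := S_shift hn hy
  have hS' := S_shift hn hy'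
  obtain ⟨G, t, hrep, ht1, ht2⟩ := rep_of_gt hn hy
  obtain ⟨G', t', hrep', ht1', ht2'⟩ := rep_of_gt hn hy'
  rw [hrep, S_form hn G t ht2] at hS
  rw [hrep', S_form hn G' t' ht2'] at hS'
  have hcast : ((n - 1 : ℕ) : ℤ) = (n : ℤ) - 1 := by
    push_cast [Nat.cast_sub hn]; ring
  have key := key_int (n := (n : ℤ)) (m := (m : ℤ)) (G := (G : ℤ)) (G' := (G' : ℤ)) (t := (t : ℤ))
    (t' := (t' : ℤ)) (G1 := (G1 : ℤ)) (G2 := (G2 : ℤ)) (a := ((T (n - 1) : ℕ) : ℤ))
    (TG := ((T G : ℕ) : ℤ)) (TG' := ((T G' : ℕ) : ℤ)) (Tt := ((T t : ℕ) : ℤ))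
    (Tt' := ((T t' : ℕ) : ℤ)) (T1 := ((T G1 : ℕ) : ℤ)) (T2 := ((T G2 : ℕ) : ℤ))
    (by rw [two_T_int, hcast]; ring) (two_T_int _) (two_T_int _) (two_T_int _) (two_T_int _)
    (two_T_int _) (two_T_int _) (by exact_mod_cast hn) (by exact_mod_cast ht1)
    (by exact_mod_cast ht2) (by exact_mod_cast ht1') (by exact_mod_cast ht2')
    (by exact_mod_cast hG) (by exact_mod_cast hG1) (by exact_mod_cast hG2)
    (by
      have h1 : x + n + (u + n) = m * n + n := by omega
      rw [hrep, hrep'] at h1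
      have h2 : (((T (n - 1) + n * G + t + (T (n - 1) + n * G' + t') : ℕ)) : ℤ) =
        ((m * n + n : ℕ) : ℤ) := by rw [h1]
      push_cast at h2
      linear_combination h2)
    (by
      have h1 : x + n ≤ (u + n) + n := by omega
      rw [hrep, hrep'] at h1
      have h2 : (((T (n - 1) + n * G + t : ℕ)) : ℤ) ≤
        ((T (n - 1) + n * G' + t' + n : ℕ) : ℤ) := by exact_mod_cast h1
      push_cast at h2
      linarith)
    (by
      have h1 : u + n < (x + n) + n := by omega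
      rw [hrep, hrep'] at h1
      have h2 : (((T (n - 1) + n * G' + t' : ℕ)) : ℤ) <
        ((T (n - 1) + n * G + t + n : ℕ) : ℤ) := by exact_mod_cast h1
      push_cast at h2
      linarith)
  have key' : G * T (n - 1) + n * T G + t * G + T t + (G' * T (n - 1) + n * T G' + t' * G' + T t') ≤
      G1 * T (n - 1) + n * T G1 + (G2 * T (n - 1) + n * T G2) + (m * n + n) := by
    exact_mod_cast key
  unfold QD
  omega

/-- the key inequality -/
lemma key_ineq {m n x u G1 G2 : ℕ} (hn : 1 ≤ n) (hmn : n ≤ m) (hG : m = n + G1 + G2)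
    (hG1 : G2 ≤ G1) (hG2 : G1 ≤ G2 + 1) (hx : 2 * x ≤ m * n) (hu : 2 * u < m * n)
    (hxu : x + u + n ≤ m * n) : S n x + S n u ≤ QD n G1 + QD n G2 := by
  by_cases hc : 2 * (m * n - n - u) ≤ m * n
  · have h1 : S n x ≤ S n (m * n - n - u) := S_mono n _ _ (by omega)
    have h2 := key_eq (x := m * n - n - u) (u := u) hn hmn hG hG1 hG2 hc hu (by omega)
    omega
  · have h1 : S n x ≤ S n (m * n / 2) := S_mono n _ _ (by omega)
    have h2 : S n u ≤ S n (m * n - n - m * n / 2) := S_mono n _ _ (by omega)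
    have h3 := key_eq (x := m * n / 2) (u := m * n - n - m * n / 2) hn hmn hG hG1 hG2
      (by omega) (by omega) (by omega)
    omega

end SlowChain
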