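import Pool.Agent.SlowChain.Grid

set_option autoImplicit false

namespace SlowChain

open Finset

lemma le_T (x : ℕ) : x ≤ T x := by
  induction x with
  | zero => exact le_rfl
  | succ x ih => rw [T_succ]; omega

/-- the least `k` with `x ≤ T k` -/
def Tinv (x : ℕ) : ℕ := Nat.find (⟨x, le_T x⟩ : ∃ k, x ≤ T k)

lemma Tinv_le_iff {x k : ℕ} : Tinv x ≤ k ↔ x ≤ T k := by
  unfold Tinv
  rw [Nat.find_le_iff]
  constructor
  · rintro ⟨j, hj, h⟩
    exact h.trans (T_mono hj)
  · intro h
    exact ⟨k, le_rfl, h⟩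

lemma Tinv_pos {x : ℕ} (hx : 1 ≤ x) : 1 ≤ Tinv x := by
  by_contra hcon
  have : Tinv x ≤ 0 := by omega
  rw [Tinv_le_iff] at this
  have h0 : T 0 = 0 := rfl
  omega

lemma Tinv_succ_le (x : ℕ) : Tinv (x + 1) ≤ Tinv x + 1 := by
  rw [Tinv_le_iff, T_succ]
  have : x ≤ T (Tinv x) := Tinv_le_iff.mp le_rfl
  omega

/-- the predecessor map -/
def pr (n x : ℕ) : ℕ := x - max 1 (min n (Tinv x))

lemma pr_lt {n x : ℕ} (hx : x ≠ 0) : pr n x < x := by
  unfold pr; omega

/-- the potential -/
def S (n x : ℕ) : ℕ := if h : x = 0 then 0 else x + S n (pr n x)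
termination_by x
decreasing_by exact pr_lt h

lemma S_zero (n : ℕ) : S n 0 = 0 := by
  rw [S]; simp

lemma S_pos {n x : ℕ} (hx : x ≠ 0) : S n x = x + S n (pr n x) := by
  rw [S, dif_neg hx]

lemma le_S (n x : ℕ) : x ≤ S n x := by
  by_cases hx : x = 0
  · rw [hx]; exact Nat.zero_le _
  · rw [S_pos hx]; omega

lemma pr_succ (n x : ℕ) : pr n x ≤ pr n (x + 1) := by
  have := Tinv_succ_le x
  unfold pr
  omega

lemma pr_mono (n : ℕ) {x y : ℕ} (h : x ≤ y) : pr n x ≤ pr n y := by
  induction h with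
  | refl => exact le_rfl
  | step _ ih => exact ih.trans (pr_succ n _)

lemma S_mono (n : ℕ) : ∀ y x, x ≤ y → S n x ≤ S n y := by
  intro y
  induction y using Nat.strong_induction_on with
  | _ y ih =>
    intro x hxy
    by_cases hx : x = 0
    · rw [hx, S_zero]; exact Nat.zero_le _
    · have hy : y ≠ 0 := by omega
      rw [S_pos hx, S_pos hy]
      have := ih (pr n y) (pr_lt hy) (pr n x) (pr_mono n hxy)
      omega

/-- lower half step -/
lemma low_step {n x x' : ℕ} (hn : 1 ≤ n) (h : x' + min n (Tinv x' + 1) ≤ x) : x' ≤ pr n x := by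
  refine le_trans ?_ (pr_mono n h)
  have h1 : x' ≤ T (Tinv x') := Tinv_le_iff.mp le_rfl
  by_cases hc : Tinv x' + 1 ≤ n
  · have h2 : Tinv (x' + min n (Tinv x' + 1)) ≤ Tinv x' + 1 := by
      rw [Tinv_le_iff, T_succ]; omega
    unfold pr
    omega
  · unfold pr
    omega

/-- upper half step -/
lemma up_step {n u u' : ℕ} (hn : 1 ≤ n) (hu : 1 ≤ u) (h : u' + min n (Tinv u) ≤ u) :
    u' ≤ pr n u := by
  have := Tinv_pos hu
  unfold pr
  omega

lemma S_step_low {n x x' : ℕ} (hn : 1 ≤ n) (hx : 1 ≤ x) (h : x' + min n (Tinv x' + 1) ≤ x) :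
    S n x' + x ≤ S n x := by
  have h1 := S_mono n _ _ (low_step hn h)
  rw [S_pos (show x ≠ 0 by omega)]
  omega

lemma S_step_up {n u u' : ℕ} (hn : 1 ≤ n) (hu : 1 ≤ u) (h : u' + min n (Tinv u) ≤ u) :
    S n u' + u ≤ S n u := by
  have h1 := S_mono n _ _ (up_step hn hu h)
  rw [S_pos (show u ≠ 0 by omega)]
  omega

/-! ### closed form of the potential -/

/-- tetrahedral numbers -/
def Tet : ℕ → ℕ
  | 0 => 0
  | k + 1 => Tet k + T (k + 1)

lemma Tet_succ (k : ℕ) : Tet (k + 1) = Tet k + T (k + 1) := rfl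

lemma S_base {n : ℕ} (hn : 1 ≤ n) : ∀ k, k + 1 ≤ n → ∀ t ≤ k + 1, S n (T k + t) = Tet k + T t := by
  intro k
  induction k with
  | zero =>
    intro _ t ht
    have h0 : T 0 = 0 := rfl
    have h0' : Tet 0 = 0 := rfl
    rw [h0, h0', zero_add, zero_add]
    by_cases ht0 : t = 0
    · rw [ht0, S_zero, h0]
    · have : t = 1 := by omega
      rw [this, S_pos (by norm_num)]
      have hp : pr n 1 = 0 := by unfold pr; omega
      rw [hp, S_zero]
      rfl
  | succ k ih =>
    intro hk t ht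
    have ihk := ih (by omega)
    by_cases ht0 : t = 0
    · rw [ht0, add_zero, T_succ, ihk (k + 1) le_rfl, Tet_succ]
      rfl
    · obtain ⟨t', rfl⟩ : ∃ t', t = t' + 1 := ⟨t - 1, by omega⟩
      have hTinv : Tinv (T (k + 1) + (t' + 1)) = k + 2 := by
        apply le_antisymm
        · rw [Tinv_le_iff, T_succ (k + 1)]; omega
        · by_contra hcon
          have : Tinv (T (k + 1) + (t' + 1)) ≤ k + 1 := by omega
          rw [Tinv_le_iff] at this
          omega
      have hp : pr n (T (k + 1) + (t' + 1)) = T k + t' := by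
        unfold pr
        rw [hTinv, T_succ k]
        omega
      rw [S_pos (by omega), hp, ihk t' (by omega), Tet_succ, T_succ t']
      omega

lemma S_form {n : ℕ} (hn : 1 ≤ n) : ∀ G t, t ≤ n →
    S n (T (n - 1) + n * G + t) = Tet (n - 1) + G * T (n - 1) + n * T G + t * G + T t := by
  intro G
  induction G with
  | zero =>
    intro t ht
    have h0 : T 0 = 0 := rfl
    rw [mul_zero, add_zero, S_base hn (n - 1) (by omega) t (by omega), h0]
    ring
  | succ G ih =>
    intro t ht
    have hlt : ¬ (Tinv (T (n - 1) + n * (G + 1) + t) ≤ n - 1) := by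
      rw [Tinv_le_iff]
      have : n * (G + 1) = n * G + n := by ring
      omega
    have hp : pr n (T (n - 1) + n * (G + 1) + t) = T (n - 1) + n * G + t := by
      have : n * (G + 1) = n * G + n := by ring
      unfold pr
      omega
    have hne : T (n - 1) + n * (G + 1) + t ≠ 0 := by
      have : n * (G + 1) = n * G + n := by ring
      omega
    rw [S_pos hne, hp, ih t ht, T_succ G]
    ring

end SlowChain
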